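import Pool.Agent.X86.DS.Vec

/-! # The local dimension of the dimension spectrum of a conformal IFS need not be continuous -/

set_option autoImplicit false

open Set Filter Topology MeasureTheory
open scoped ENNReal NNReal

namespace Pool.Agent.Results.MP_906def_an.DimensionJump

open Pool.Agent.X86.DS

/-- The dimension spectrum `{HD (J_F) : F ⊆ E}` of a conformal iterated function system. -/
noncomputable def DS {d : ℕ} {E : Type} (S : CIFS d E) : Set ℝ :=
  {t | ∃ F : Set E, t = (dimH (S.J F)).toReal}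

/-- **In every dimension `d ≥ 1` there is a conformal iterated function system whose dimension
spectrum `F` has local dimension `1` at all points of `[0, 1/2] ⊆ F` and local dimension `0` at all
points of `F ∩ (1/2, ∞)`, a set accumulating at `1/2`; so `x ↦ dim_x F` is not continuous on
`F`.** -/
theorem _root_.Pool.Agent.Results.MP_906def_an.DimensionJump.result (d : ℕ) (hd : 1 ≤ d) :
    ∃ (E : Type) (S : CIFS d E), Infinite E ∧
      Icc (0:ℝ) (1 / 2) ⊆ DS S ∧
      (∀ x ∈ DS S, x ≤ 1 / 2 → localDim (DS S) x = 1) ∧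
      (∀ x ∈ DS S, 1 / 2 < x → localDim (DS S) x = 0) ∧
      (∀ ε : ℝ, 0 < ε → ∃ x ∈ DS S, 1 / 2 < x ∧ x < 1 / 2 + ε) ∧
      ¬ ContinuousOn (localDim (DS S)) (DS S) := by
  obtain ⟨E, hE, _, D, h1, h2, h3, h4⟩ := exists_example
  obtain ⟨S, h5, h6⟩ := h4 d hd
  have hD : DS S = D := by
    ext x
    constructor
    · rintro ⟨F, rfl⟩; exact h5 F
    · intro hx
      obtain ⟨F, _, hF⟩ := h6 x hx
      exact ⟨F, hF⟩
  have h7 : ∀ x ∈ DS S, x ≤ 1 / 2 → localDim (DS S) x = 1 := by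
    rintro x ⟨F, rfl⟩ hx
    exact localDim_low (hD ▸ h1) ⟨ENNReal.toReal_nonneg, hx⟩
  have h8 : ∀ x ∈ DS S, 1 / 2 < x → localDim (DS S) x = 0 := by
    intro x _ hx
    exact localDim_high (hD ▸ h2) hx
  have h9 : ∀ ε : ℝ, 0 < ε → ∃ x ∈ DS S, 1 / 2 < x ∧ x < 1 / 2 + ε := by
    intro ε hε
    obtain ⟨x, hx, a1, a2⟩ := h3 (ε / 2) (by linarith)
    exact ⟨x, hD ▸ hx, a1, by linarith⟩
  refine ⟨E, S, hE, hD ▸ h1, h7, h8, h9, fun hc => ?_⟩
  have hmem : (1 / 2 : ℝ) ∈ DS S := hD ▸ h1 ⟨by norm_num, le_rfl⟩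
  have hc2 := (hc (1 / 2) hmem).eventually (lt_mem_nhds (a := 0) (by
    rw [h7 _ hmem le_rfl]; exact one_pos))
  rw [eventually_nhdsWithin_iff, Metric.eventually_nhds_iff] at hc2
  obtain ⟨ε, hε, hc3⟩ := hc2
  obtain ⟨x, hx, a1, a2⟩ := h9 ε hε
  have := hc3 (y := x) (by rw [Real.dist_eq, abs_of_pos (by linarith)]; linarith) hx
  rw [h8 x hx a1] at this
  exact lt_irrefl _ this

end Pool.Agent.Results.MP_906def_an.DimensionJump
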